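import Pool.Agent.Q123.CC.Sharp

/-!
# Boolean matrices whose rows are closed under an operation: the columns are nearly independent
-/

namespace Q123.LR

open Finset Q123.CC

variable {X Y : Type*} [Fintype X] [Fintype Y]

/-- The real vector of a column. -/
def colVec (A : X → Y → Bool) (y : Y) : X → ℝ := fun x => if A x y then 1 else 0

/-- Rows closed under conjunction. -/
lemma indep_meet (A : X → Y → Bool) (hA : ∀ x x', ∃ z, ∀ y, A z y = (A x y && A x' y))
    (S : Finset Y) (hne : ∀ y ∈ S, ∃ x, A x y = true)
    (hdist : ∀ y ∈ S, ∀ y' ∈ S, y ≠ y' → ∃ x, A x y ≠ A x y') :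
    LinearIndependent ℝ (fun y : S => colVec A y) := by
  classical
  set w : X → ℕ := fun x => (univ.filter fun y => A x y = true).card with hw
  -- the least row containing `y`
  have hm : ∀ y : S, ∃ m : X, A m y = true ∧
      ∀ x, A x y = true → ∀ y', A m y' = true → A x y' = true := by
    rintro ⟨y, hy⟩
    obtain ⟨x₀, hx₀⟩ := hne y hy
    obtain ⟨m, hm1, hm2⟩ := exists_min_image (univ.filter fun x => A x y = true) w
      ⟨x₀, by simp [hx₀]⟩
    have hm1' : A m y = true := by simpa using hm1
    refine ⟨m, hm1', ?_⟩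
    intro x hx y' hy'
    obtain ⟨z, hz⟩ := hA m x
    have hx' : A x y = true := hx
    have h1 : w m ≤ w z := hm2 z (by simp [hz, hm1', hx'])
    have h2 : (univ.filter fun y => A z y = true) ⊆ univ.filter fun y => A m y = true := by
      intro t ht
      rw [mem_filter, hz, Bool.and_eq_true] at ht
      rw [mem_filter]
      exact ⟨mem_univ _, ht.2.1⟩
    have h3 := eq_of_subset_of_card_le h2 h1
    have h4 : y' ∈ univ.filter fun y => A z y = true := by
      rw [h3]; simp [hy']
    rw [mem_filter, hz, Bool.and_eq_true] at h4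
    exact h4.2.2
  choose m hm1 hm2 using hm
  rw [Fintype.linearIndependent_iff]
  intro g hg
  have key : ∀ n : ℕ, ∀ y : S, w (m y) ≤ n → g y = 0 := by
    intro n
    induction n using Nat.strong_induction_on with
    | _ n ih =>
      intro y hy
      have h1 := congrFun hg (m y)
      rw [Finset.sum_apply, Pi.zero_apply, Finset.sum_eq_single y] at h1
      · simp only [Pi.smul_apply, smul_eq_mul, colVec, hm1 y] at h1
        simpa using h1
      · intro y' _ hyy'
        simp only [Pi.smul_apply, smul_eq_mul, colVec]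
        by_cases h2 : A (m y) y' = true
        · have hsub : (univ.filter fun t => A (m y') t = true) ⊆
              univ.filter fun t => A (m y) t = true := by
            intro t ht
            simp only [mem_filter, mem_univ, true_and] at ht ⊢
            exact hm2 y' (m y) h2 t ht
          have hlt : w (m y') < w (m y) := by
            apply card_lt_card
            refine hsub.ssubset_of_ne (fun heq => ?_)
            obtain ⟨x, hx⟩ := hdist y y.2 y' y'.2 (fun h => hyy' (Subtype.ext h.symm))
            have hrow : ∀ t, A (m y') t = true ↔ A (m y) t = true := by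
              intro t
              have := Finset.ext_iff.mp heq t
              simpa using this
            apply hx
            by_cases h3 : A x y = true
            · rw [h3]
              exact (hm2 y x h3 y' h2).symm
            · have h3' : A x y = false := by simpa using h3
              rw [h3']
              by_contra h4
              have h4' : A x y' = true := by
                cases h : A x y'
                · exact absurd h.symm h4
                · rfl
              exact h3 (hm2 y' x h4' y ((hrow y).mpr (hm1 y)))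
          rw [ih (w (m y')) (lt_of_lt_of_le hlt hy) y' le_rfl, zero_mul]
        · have h2' : A (m y) y' = false := by simpa using h2
          simp [h2']
      · intro h; exact absurd (mem_univ _) h
  intro y
  exact key _ y le_rfl

/-- the sign of a bit -/
noncomputable def sg (a : ZMod 2) : ℝ := if a = 0 then 1 else -1

lemma sg_add (a b : ZMod 2) : sg (a + b) = sg a * sg b := by
  rcases zmod2_cases a with rfl | rfl <;> rcases zmod2_cases b with rfl | rfl <;>
    simp [sg, CharTwo.add_self_eq_zero]

lemma sg_mul_self (a : ZMod 2) : sg a * sg a = 1 := by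
  rcases zmod2_cases a with rfl | rfl <;> simp [sg]

/-- balance -/
lemma sum_sg_eq_zero (C : Finset (Y → ZMod 2)) (hC : ∀ x ∈ C, ∀ y ∈ C, ∀ z ∈ C, x + y + z ∈ C)
    (y y' : Y) (h0 : ∃ a ∈ C, a y + a y' = 0) (h1 : ∃ b ∈ C, b y + b y' = 1) :
    ∑ c ∈ C, sg (c y + c y') = 0 := by
  classical
  obtain ⟨a, ha, ha'⟩ := h0
  obtain ⟨b, hb, hb'⟩ := h1
  have hinv : ∀ c : Y → ZMod 2, c + a + b + a + b = c := by
    intro c
    funext t
    simp only [Pi.add_apply]
    have : ∀ c a b : ZMod 2, c + a + b + a + b = c := by decide
    exact this _ _ _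
  have h2 : ∑ c ∈ C, sg (c y + c y') = ∑ c ∈ C, sg ((c + a + b) y + (c + a + b) y') := by
    refine sum_nbij' (fun c => c + a + b) (fun c => c + a + b) ?_ ?_ ?_ ?_ ?_
    · intro c hc; exact hC c hc a ha b hb
    · intro c hc; exact hC c hc a ha b hb
    · intro c _
      show c + a + b + a + b = c
      exact hinv c
    · intro c _
      show c + a + b + a + b = c
      exact hinv c
    · intro c _
      show sg (c y + c y') = sg ((c + a + b + a + b) y + (c + a + b + a + b) y')
      rw [hinv]
  have h3 : ∀ c : Y → ZMod 2, sg ((c + a + b) y + (c + a + b) y') = - sg (c y + c y') := by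
    intro c
    have e : (c + a + b) y + (c + a + b) y' = (c y + c y') + 1 := by
      simp only [Pi.add_apply]
      have : c y + a y + b y + (c y' + a y' + b y') = (c y + c y') + (a y + a y') + (b y + b y') := by
        ring
      rw [this, ha', hb', add_zero]
    rw [e, sg_add]
    simp [sg]
  simp only [h3] at h2
  rw [sum_neg_distrib] at h2
  linarith

/-- Rows closed under `x + y + z`. -/
lemma indep_affine (A : X → Y → ZMod 2)
    (hA : ∀ x x' x'', ∃ z, ∀ y, A z y = A x y + A x' y + A x'' y)
    (S : Finset Y)
    (hdist : ∀ y ∈ S, ∀ y' ∈ S, y ≠ y' → (∃ x, A x y + A x y' = 0) ∧ ∃ x, A x y + A x y' = 1) :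
    S.card = 1 ∨ LinearIndependent ℝ (fun y : S => fun x : X => sg (A x y)) := by
  classical
  rcases isEmpty_or_nonempty X with hX | hX
  · by_cases hS : S.card ≤ 1
    · rcases Nat.lt_or_ge S.card 1 with h | h
      · right
        have : IsEmpty S := by
          rw [isEmpty_iff]
          rintro ⟨y, hy⟩
          exact absurd (card_pos.mpr ⟨y, hy⟩) (by omega)
        exact linearIndependent_empty_type
      · left; omega
    · push Not at hS
      obtain ⟨y, hy, y', hy', hne⟩ := one_lt_card.mp hS
      obtain ⟨x, -⟩ := (hdist y hy y' hy' hne).1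
      exact (hX.false x).elim
  right
  set C : Finset (Y → ZMod 2) := univ.image A with hC
  have hCcl : ∀ x ∈ C, ∀ y ∈ C, ∀ z ∈ C, x + y + z ∈ C := by
    intro a ha b hb c hc
    obtain ⟨x, -, rfl⟩ := mem_image.mp ha
    obtain ⟨x', -, rfl⟩ := mem_image.mp hb
    obtain ⟨x'', -, rfl⟩ := mem_image.mp hc
    obtain ⟨z, hz⟩ := hA x x' x''
    refine mem_image.mpr ⟨z, mem_univ _, ?_⟩
    funext y
    exact hz y
  have hCne : 0 < C.card := by
    obtain ⟨x⟩ := hX
    exact card_pos.mpr ⟨A x, mem_image.mpr ⟨x, mem_univ _, rfl⟩⟩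
  rw [Fintype.linearIndependent_iff]
  intro g hg y₀
  have h1 : ∀ c ∈ C, ∑ y : S, g y * sg (c y) = 0 := by
    intro c hc
    obtain ⟨x, -, rfl⟩ := mem_image.mp hc
    have := congrFun hg x
    rw [Finset.sum_apply, Pi.zero_apply] at this
    simpa using this
  have h2 : ∑ c ∈ C, (∑ y : S, g y * sg (c y)) * sg (c y₀) = 0 :=
    sum_eq_zero (fun c hc => by rw [h1 c hc, zero_mul])
  have h3 : ∑ c ∈ C, (∑ y : S, g y * sg (c y)) * sg (c y₀) =
      ∑ y : S, g y * ∑ c ∈ C, sg (c y + c y₀) := by
    simp only [sum_mul]
    rw [sum_comm]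
    refine sum_congr rfl (fun y _ => ?_)
    rw [mul_sum]
    refine sum_congr rfl (fun c _ => ?_)
    rw [sg_add]; ring
  rw [h3, sum_eq_single y₀] at h2
  · have h4 : ∑ c ∈ C, sg (c y₀ + c y₀) = C.card := by
      rw [sum_congr rfl (g := fun _ => (1 : ℝ)) (fun c _ => by rw [sg_add, sg_mul_self])]
      simp
    rw [h4] at h2
    rcases mul_eq_zero.mp h2 with h | h
    · exact h
    · exact absurd h (by exact_mod_cast hCne.ne')
  · intro y _ hy
    have hyy : (y : Y) ≠ y₀ := fun h => hy (Subtype.ext h)
    obtain ⟨⟨x, hx⟩, x', hx'⟩ := hdist y y.2 y₀ y₀.2 hyy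
    rw [sum_sg_eq_zero C hCcl y y₀ ⟨A x, mem_image.mpr ⟨x, mem_univ _, rfl⟩, hx⟩
      ⟨A x', mem_image.mpr ⟨x', mem_univ _, rfl⟩, hx'⟩, mul_zero]
  · intro h; exact absurd (mem_univ _) h

end Q123.LR
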