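import Pool.Agent.Q123.LR.Rank

/-!
# Boolean matrices whose rows are closed under an operation: the protocol
-/

namespace Q123.LR

open Finset

variable {X Y : Type*}

/-- `F` has a deterministic two-party protocol with `c` bits (format of the frozen statement). -/
def HasProtocol (F : X → Y → Bool) (c : ℕ) : Prop :=
  ∃ (owner : List Bool → Bool) (a : List Bool → X → Bool) (b : List Bool → Y → Bool)
    (out : List Bool → Bool),
    ∀ x y, out (Nat.iterate
      (fun t : List Bool => t ++ [if owner t then a t x else b t y]) c []) = F x y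

open Classical in
lemma protocol_of_code (F : X → Y → Bool) (m : ℕ) (code : Y → ℕ) (hlt : ∀ y, code y < 2 ^ m)
    (hcode : ∀ y y', code y = code y' → ∀ x, F x y = F x y') : HasProtocol F (m + 1) := by
  refine ⟨fun t => decide (t.length = m),
    fun t x => decide (∃ y, (List.range m).map (fun i => (code y).testBit i) = t ∧ F x y = true),
    fun t y => (code y).testBit t.length, fun t => t.getD m false, ?_⟩
  intro x y
  have h1 : ∀ j ≤ m, Nat.iterate (fun t : List Bool => t ++ [if decide (t.length = m) = true then
      decide (∃ y, (List.range m).map (fun i => (code y).testBit i) = t ∧ F x y = true)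
      else (code y).testBit t.length]) j [] = (List.range j).map (fun i => (code y).testBit i) := by
    intro j
    induction j with
    | zero => intro _; rfl
    | succ j ih =>
      intro hj
      rw [Function.iterate_succ_apply', ih (by omega), List.range_succ, List.map_append]
      have h2 : ((List.range j).map (fun i => (code y).testBit i)).length = j := by simp
      have h3 : ¬ j = m := by omega
      simp [h3]
  rw [Function.iterate_succ_apply', h1 m le_rfl]
  beta_reduce
  have h2 : ((List.range m).map (fun i => (code y).testBit i)).length = m := by simp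
  rw [h2]
  simp only [decide_true, if_true]
  rw [List.getD_append_right _ _ _ _ (by rw [h2]), h2, Nat.sub_self]
  simp only [List.getD_cons_zero]
  have hbits : ∀ y', (List.range m).map (fun i => (code y').testBit i) =
      (List.range m).map (fun i => (code y).testBit i) → code y' = code y := by
    intro y' h
    apply Nat.eq_of_testBit_eq
    intro i
    by_cases hi : i < m
    · have := congrArg (fun l => l.getD i false) h
      simpa [List.getD_eq_getElem?_getD, List.getElem?_map, List.getElem?_range hi] using this
    · have e1 : 2 ^ m ≤ 2 ^ i := Nat.pow_le_pow_right (by norm_num) (by omega)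
      rw [Nat.testBit_lt_two_pow ((hlt y').trans_le e1),
        Nat.testBit_lt_two_pow ((hlt y).trans_le e1)]
  cases hF : F x y
  · rw [decide_eq_false_iff_not]
    rintro ⟨y', hy', hy''⟩
    rw [hcode y' y (hbits y' hy')] at hy''
    rw [hF] at hy''
    exact Bool.false_ne_true hy''
  · rw [decide_eq_true_iff]
    exact ⟨y, rfl, hF⟩

lemma HasProtocol.swap {F : X → Y → Bool} {c : ℕ}
    (h : HasProtocol (fun y x => F x y) c) : HasProtocol F c := by
  obtain ⟨owner, a, b, out, h⟩ := h
  refine ⟨fun t => !(owner t), b, a, out, fun x y => ?_⟩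
  have h' : out (Nat.iterate
      (fun t : List Bool => t ++ [if owner t then a t y else b t x]) c []) = F x y := h y x
  rw [← h']
  congr 1
  have : (fun t : List Bool => t ++ [if (!(owner t)) = true then b t x else a t y]) =
      fun t : List Bool => t ++ [if owner t = true then a t y else b t x] := by
    funext t
    cases owner t <;> simp
  rw [this]

lemma protocol_of_columns [Fintype Y] [DecidableEq (X → Bool)] (F : X → Y → Bool) (N : ℕ)
    (hN : (univ.image (fun y => fun x => F x y) : Finset (X → Bool)).card ≤ N) :
    HasProtocol F (Nat.clog 2 N + 1) := by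
  set D := (univ.image (fun y => fun x => F x y) : Finset (X → Bool)) with hD
  have hmem : ∀ y, (fun x => F x y) ∈ D := fun y => mem_image.mpr ⟨y, mem_univ _, rfl⟩
  apply protocol_of_code F (Nat.clog 2 N) (fun y => (D.equivFin ⟨_, hmem y⟩ : Fin D.card))
  · intro y
    have h1 := (D.equivFin ⟨_, hmem y⟩).2
    have h2 : N ≤ 2 ^ Nat.clog 2 N := Nat.le_pow_clog (by norm_num) N
    omega
  · intro y y' h x
    have h1 := D.equivFin.injective (Fin.ext h)
    have h2 := congrArg Subtype.val h1
    exact congrFun h2 x

/-- number of distinct columns -/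
theorem columns_le [Fintype X] [Fintype Y] [DecidableEq (X → Bool)] [DecidableEq Y] {k : ℕ} {f : (Fin k → ZMod 2) → ZMod 2}
    (hf : ¬ Unary f) (F : X → Y → Bool) (hF : RowsClosed f F) :
    (univ.image (fun y => fun x => F x y) : Finset (X → Bool)).card ≤ 2 * (mat F).rank + 4 := by
  set D := (univ.image (fun y => fun x => F x y) : Finset (X → Bool)) with hD
  rcases isEmpty_or_nonempty X with hX | ⟨⟨x₀⟩⟩
  · have : D.card ≤ 1 := by
      rw [card_le_one]
      intro a _ b _
      funext x
      exact (hX.false x).elim
    omega
  have key : ∀ i : Bool, (D.filter fun c => c x₀ = i ∧ c ≠ fun _ => i).card ≤ (mat F).rank + 1 := by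
    intro i
    set E := D.filter fun c => c x₀ = i ∧ c ≠ fun _ => i with hE
    have hch : ∀ c : E, ∃ y, (fun x => F x y) = c.1 := by
      rintro ⟨c, hc⟩
      obtain ⟨y, -, hy⟩ := mem_image.mp (mem_filter.mp hc).1
      exact ⟨y, hy⟩
    choose g hg using hch
    have hginj : Function.Injective g := by
      intro c c' h
      apply Subtype.ext
      rw [← hg c, ← hg c', h]
    have hcard : (univ.image g).card = E.card := by
      rw [card_image_of_injective _ hginj, card_univ, Fintype.card_coe]
    rw [← hcard]
    apply card_le_rank hf F hF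
    constructor
    · intro y hy
      obtain ⟨c, -, rfl⟩ := mem_image.mp hy
      have hc := (mem_filter.mp c.2).2
      have h1 : F x₀ (g c) = i := by
        have : F x₀ (g c) = c.1 x₀ := congrFun (hg c) x₀
        rw [this]; exact hc.1
      have h2 : ∃ x, F x (g c) ≠ i := by
        by_contra hcon
        push Not at hcon
        apply hc.2
        rw [← hg c]
        funext x
        exact hcon x
      obtain ⟨x, hx⟩ := h2
      cases i
      · exact ⟨⟨x, by simpa using hx⟩, x₀, h1⟩
      · exact ⟨⟨x₀, h1⟩, x, by simpa using hx⟩
    · intro y hy y' hy' hne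
      obtain ⟨c, -, rfl⟩ := mem_image.mp hy
      obtain ⟨c', -, rfl⟩ := mem_image.mp hy'
      have h1 : F x₀ (g c) = i := by
        have : F x₀ (g c) = c.1 x₀ := congrFun (hg c) x₀
        rw [this]; exact (mem_filter.mp c.2).2.1
      have h1' : F x₀ (g c') = i := by
        have : F x₀ (g c') = c'.1 x₀ := congrFun (hg c') x₀
        rw [this]; exact (mem_filter.mp c'.2).2.1
      refine ⟨?_, x₀, by rw [h1, h1']⟩
      by_contra hcon
      push Not at hcon
      apply hne
      have : c = c' := by
        apply Subtype.ext
        rw [← hg c, ← hg c']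
        funext x
        exact hcon x
      rw [this]
  have hcover : D ⊆ (D.filter fun c => c x₀ = false ∧ c ≠ fun _ => false) ∪
      (D.filter fun c => c x₀ = true ∧ c ≠ fun _ => true) ∪ {fun _ => false, fun _ => true} := by
    intro c hc
    simp only [mem_union, mem_filter, mem_insert, mem_singleton, hc, true_and]
    cases h : c x₀
    · by_cases h2 : c = fun _ => false
      · right; left; exact h2
      · left; left; exact ⟨rfl, h2⟩
    · by_cases h2 : c = fun _ => true
      · right; right; exact h2
      · left; right; exact ⟨rfl, h2⟩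
  have h1 := card_le_card hcover
  have h2 := card_union_le ((D.filter fun c => c x₀ = false ∧ c ≠ fun _ => false) ∪
      (D.filter fun c => c x₀ = true ∧ c ≠ fun _ => true)) {fun _ => false, fun _ => true}
  have h3 := card_union_le (D.filter fun c => c x₀ = false ∧ c ≠ fun _ => false)
      (D.filter fun c => c x₀ = true ∧ c ≠ fun _ => true)
  have h4 : ({fun _ => false, fun _ => true} : Finset (X → Bool)).card ≤ 2 := card_le_two
  have h5 := key false
  have h6 := key true
  omega

/-- `⌈log₂ (2 r + 4)⌉ + 1 ≤ log₂ r + 5` -/
lemma clog_bound (r : ℕ) : ((Nat.clog 2 (2 * r + 4) + 1 : ℕ) : ℝ) ≤ Real.logb 2 r + 5 := by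
  rcases Nat.eq_zero_or_pos r with rfl | hr
  · have : Nat.clog 2 (2 * 0 + 4) = 2 := by decide
    rw [this]
    simp
    norm_num
  · have h1 : 2 * r + 4 ≤ 8 * r := by omega
    have h2 : Nat.clog 2 (2 * r + 4) ≤ Nat.clog 2 (8 * r) := Nat.clog_mono_right 2 h1
    have h3 : Nat.clog 2 (8 * r) ≤ Nat.clog 2 r + 3 := by
      rw [Nat.clog_le_iff_le_pow (by norm_num)]
      have := Nat.le_pow_clog (b := 2) (by norm_num) r
      rw [pow_add]
      omega
    have h4 : (Nat.clog 2 r : ℝ) ≤ Real.logb 2 r + 1 := by
      rcases Nat.eq_or_lt_of_le hr with h | h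
      · rw [← h]; simp
      · have h5 : 2 ^ (Nat.clog 2 r - 1) < r := by
          apply Nat.pow_pred_clog_lt_self (by norm_num) h
        have h6 : ((Nat.clog 2 r - 1 : ℕ) : ℝ) < Real.logb 2 r := by
          rw [Real.lt_logb_iff_rpow_lt (by norm_num) (by exact_mod_cast hr), Real.rpow_natCast]
          exact_mod_cast h5
        have h7 : 1 ≤ Nat.clog 2 r := Nat.clog_pos (by norm_num) h
        rw [Nat.cast_sub h7] at h6
        push_cast at h6
        linarith
    have h8 : ((Nat.clog 2 (2 * r + 4) + 1 : ℕ) : ℝ) ≤ Nat.clog 2 r + 4 := by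
      have : Nat.clog 2 (2 * r + 4) + 1 ≤ Nat.clog 2 r + 4 := by omega
      exact_mod_cast this
    linarith

end Q123.LR
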