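import Pool.Agent.Q123.LR.Indep

/-!
# Boolean matrices whose rows are closed under an operation: few distinct columns
-/

namespace Q123.LR

open Finset Q123.CC Submodule

variable {X Y : Type*} [Fintype X] [Fintype Y]

/-- The bit `F x y` as an element of the field with two elements. -/
def wd (F : X → Y → Bool) (x : X) (y : Y) : ZMod 2 := if F x y then 1 else 0

/-- The set of rows of `F` is closed under the Boolean operation `f`, applied coordinatewise. -/
def RowsClosed {k : ℕ} (f : (Fin k → ZMod 2) → ZMod 2) (F : X → Y → Bool) : Prop :=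
  ∀ w : Fin k → X, ∃ x, ∀ y, wd F x y = f (fun i => wd F (w i) y)

/-- `f` depends on at most one variable. -/
def Unary {k : ℕ} (f : (Fin k → ZMod 2) → ZMod 2) : Prop :=
  ∃ (c : ZMod 2) (s : Finset (Fin k)), s.card ≤ 1 ∧ ∀ x, f x = c + ∑ i ∈ s, x i

/-- the real matrix of `F` -/
noncomputable def mat (F : X → Y → Bool) : Matrix X Y ℝ :=
  Matrix.of (fun x y => if F x y then (1 : ℝ) else 0)

/-- the space spanned by the columns and the constant vector -/
noncomputable def colSpace (F : X → Y → Bool) : Submodule ℝ (X → ℝ) :=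
  span ℝ (Set.range fun y => colVec F y) ⊔ span ℝ {fun _ => (1 : ℝ)}

lemma finrank_colSpace_le (F : X → Y → Bool) :
    Module.finrank ℝ (colSpace F) ≤ (mat F).rank + 1 := by
  unfold colSpace
  refine (finrank_add_le_finrank_add_finrank _ _).trans ?_
  have h1 : Module.finrank ℝ (span ℝ (Set.range fun y => colVec F y)) = (mat F).rank := by
    rw [Matrix.rank_eq_finrank_span_cols]
    rfl
  have h2 : Module.finrank ℝ (span ℝ {fun _ : X => (1 : ℝ)}) ≤ 1 := by
    refine (finrank_span_le_card _).trans ?_
    simp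
  omega

lemma card_le_of_indep (F : X → Y → Bool) (S : Finset Y) (v : S → X → ℝ)
    (hv : LinearIndependent ℝ v) (hmem : ∀ y, v y ∈ colSpace F) : S.card ≤ (mat F).rank + 1 := by
  have h1 : Module.finrank ℝ (span ℝ (Set.range v)) = S.card := by
    rw [finrank_span_eq_card hv, Fintype.card_coe]
  have hfd : FiniteDimensional ℝ (colSpace F) := by
    unfold colSpace
    infer_instance
  have h2 : span ℝ (Set.range v) ≤ colSpace F := by
    rw [span_le]
    rintro _ ⟨y, rfl⟩
    exact hmem y
  rw [← h1]
  exact (Submodule.finrank_mono h2).trans (finrank_colSpace_le F)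

/-- the columns are pairwise different and not complementary, and not constant -/
def Good (F : X → Y → Bool) (S : Finset Y) : Prop :=
  (∀ y ∈ S, (∃ x, F x y = true) ∧ ∃ x, F x y = false) ∧
  ∀ y ∈ S, ∀ y' ∈ S, y ≠ y' → (∃ x, F x y ≠ F x y') ∧ ∃ x, F x y = F x y'

lemma card_le_of_switch (F : X → Y → Bool) (b : Y → Bool)
    (hA : ∀ x x', ∃ z, ∀ y, xor (F z y) (b y) = (xor (F x y) (b y) && xor (F x' y) (b y)))
    (S : Finset Y) (hS : Good F S) : S.card ≤ (mat F).rank + 1 := by
  apply card_le_of_indep F S (fun y => colVec (fun x y => xor (F x y) (b y)) y)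
  · apply indep_meet _ hA
    · intro y hy
      obtain ⟨⟨x, hx⟩, x', hx'⟩ := hS.1 y hy
      cases hb : b y
      · exact ⟨x, by simp [hx]⟩
      · exact ⟨x', by simp [hx']⟩
    · intro y hy y' hy' hne
      obtain ⟨⟨x, hx⟩, x', hx'⟩ := hS.2 y hy y' hy' hne
      by_cases hb : b y = b y'
      · refine ⟨x, ?_⟩
        intro h
        apply hx
        rw [hb] at h
        revert h
        cases F x y <;> cases F x y' <;> cases b y' <;> decide
      · refine ⟨x', ?_⟩
        intro h
        apply hb
        rw [hx'] at h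
        revert h
        cases F x' y' <;> cases b y <;> cases b y' <;> decide
  · intro y
    cases hb : b y
    · have : colVec (fun x y => xor (F x y) (b y)) y = colVec F y := by
        funext x; simp [colVec, hb]
      rw [this]
      exact mem_sup_left (subset_span ⟨y, rfl⟩)
    · have : colVec (fun x y => xor (F x y) (b y)) y = (fun _ => (1 : ℝ)) - colVec F y := by
        funext x
        cases h : F x y <;> simp [colVec, hb, h]
      rw [this]
      exact sub_mem (mem_sup_right (mem_span_singleton_self _)) (mem_sup_left (subset_span ⟨y, rfl⟩))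

lemma card_le_of_sum (F : X → Y → Bool)
    (hA : ∀ x x' x'', ∃ z, ∀ y, wd F z y = wd F x y + wd F x' y + wd F x'' y)
    (S : Finset Y) (hS : Good F S) : S.card ≤ (mat F).rank + 1 := by
  have hd : ∀ y ∈ S, ∀ y' ∈ S, y ≠ y' →
      (∃ x, wd F x y + wd F x y' = 0) ∧ ∃ x, wd F x y + wd F x y' = 1 := by
    intro y hy y' hy' hne
    obtain ⟨⟨x, hx⟩, x', hx'⟩ := hS.2 y hy y' hy' hne
    refine ⟨⟨x', ?_⟩, x, ?_⟩
    · unfold wd; rw [hx']; exact CharTwo.add_self_eq_zero _
    · unfold wd
      cases h1 : F x y <;> cases h2 : F x y' <;> simp_all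
  rcases indep_affine (wd F) hA S hd with h | h
  · omega
  · apply card_le_of_indep F S _ h
    intro y
    have : (fun x : X => sg (wd F x y)) = (fun _ => (1 : ℝ)) - (2 : ℝ) • colVec F y := by
      funext x
      cases h : F x y
      · simp [sg, wd, colVec, h]
      · simp [sg, wd, colVec, h]
        norm_num
    rw [this]
    exact sub_mem (mem_sup_right (mem_span_singleton_self _))
      (smul_mem _ _ (mem_sup_left (subset_span ⟨y, rfl⟩)))

/-- **The rank bounds the number of columns.** -/
theorem card_le_rank {k : ℕ} {f : (Fin k → ZMod 2) → ZMod 2} (hf : ¬ Unary f)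
    (F : X → Y → Bool) (hF : RowsClosed f F) (S : Finset Y) (hS : Good F S) :
    S.card ≤ (mat F).rank + 1 := by
  classical
  rcases S.eq_empty_or_nonempty with rfl | ⟨y₀, hy₀⟩
  · simp
  obtain ⟨⟨x₀, -⟩, -⟩ := hS.1 y₀ hy₀
  obtain ⟨e⟩ : Nonempty (Y ≃ Fin (Fintype.card Y)) := ⟨Fintype.equivFin Y⟩
  set C : Finset (Fin (Fintype.card Y) → ZMod 2) :=
    univ.image (fun x : X => fun j => wd F x (e.symm j)) with hC
  have hmem : ∀ c : Fin (Fintype.card Y) → ZMod 2, c ∈ C ↔ ∃ x, ∀ y, wd F x y = c (e y) := by
    intro c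
    rw [hC, mem_image]
    constructor
    · rintro ⟨x, -, rfl⟩
      exact ⟨x, fun y => by simp⟩
    · rintro ⟨x, hx⟩
      refine ⟨x, mem_univ _, ?_⟩
      funext j
      rw [hx, Equiv.apply_symm_apply]
  have hrow : ∀ x, (fun j => wd F x (e.symm j)) ∈ C := fun x => mem_image.mpr ⟨x, mem_univ _, rfl⟩
  have hcl : Q123.CC.ClosedUnder f C := by
    intro w hw
    have : ∀ i, ∃ x, ∀ y, wd F x y = w i (e y) := fun i => (hmem _).mp (hw i)
    choose x hx using this
    obtain ⟨z, hz⟩ := hF x
    rw [hmem]
    refine ⟨z, fun y => ?_⟩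
    rw [hz]
    congr 1
    funext i
    exact hx i y
  by_cases haff : IsAffine f
  · obtain ⟨c, s, hs⟩ := haff
    have hcard : 2 ≤ s.card := by
      by_contra hcon
      exact hf ⟨c, s, by omega, hs⟩
    obtain ⟨W, c₀, hW⟩ := coset_of_affine hcard hs C hcl ⟨_, hrow x₀⟩
    apply card_le_of_sum F _ S hS
    intro x x' x''
    have h1 := add_mem (add_mem ((hW _).mp (hrow x)) ((hW _).mp (hrow x'))) ((hW _).mp (hrow x''))
    have h2 : (fun j => wd F x (e.symm j)) + c₀ + ((fun j => wd F x' (e.symm j)) + c₀) +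
        ((fun j => wd F x'' (e.symm j)) + c₀) =
        (fun j => wd F x (e.symm j) + wd F x' (e.symm j) + wd F x'' (e.symm j)) + c₀ := by
      funext j
      simp only [Pi.add_apply]
      have : ∀ a b c d : ZMod 2, a + d + (b + d) + (c + d) = a + b + c + d := by decide
      exact this _ _ _ _
    rw [h2] at h1
    obtain ⟨z, hz⟩ := (hmem _).mp ((hW _).mpr h1)
    refine ⟨z, fun y => ?_⟩
    rw [hz]
    simp
  · have hbool : ∀ (x : X) (y : Y), wd F x y = if F x y then 1 else 0 := fun _ _ => rfl
    rcases target_of_closed haff C hcl with h | h | h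
    · apply card_le_of_switch F (fun _ => false) _ S hS
      intro x x'
      obtain ⟨z, hz⟩ := (hmem _).mp (h _ (hrow x) _ (hrow x'))
      refine ⟨z, fun y => ?_⟩
      have h1 := hz y
      simp only [Pi.mul_apply, Equiv.symm_apply_apply, hbool] at h1
      cases h2 : F z y <;> cases h3 : F x y <;> cases h4 : F x' y <;>
        simp [h2, h3, h4] at h1 ⊢
    · apply card_le_of_switch F (fun _ => true) _ S hS
      intro x x'
      obtain ⟨z, hz⟩ := (hmem _).mp (h _ (hrow x) _ (hrow x'))
      refine ⟨z, fun y => ?_⟩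
      have h1 := hz y
      simp only [Pi.mul_apply, Pi.add_apply, Equiv.symm_apply_apply, hbool] at h1
      have t2 : (1 : ZMod 2) ≠ 0 := by decide
      cases h2 : F z y <;> cases h3 : F x y <;> cases h4 : F x' y <;>
        simp [h2, h3, h4, t2] at h1 ⊢
      exact absurd h1 (by decide)
    · apply card_le_of_switch F (F x₀) _ S hS
      intro x x'
      obtain ⟨z, hz⟩ := (hmem _).mp (h _ (hrow x) _ (hrow x') _ (hrow x₀))
      refine ⟨z, fun y => ?_⟩
      have h1 := hz y
      simp only [Pi.mul_apply, Pi.add_apply, Equiv.symm_apply_apply, hbool] at h1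
      revert h1
      cases F z y <;> cases F x y <;> cases F x' y <;> cases F x₀ y <;> decide

end Q123.LR
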