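import Pool.Agent.Q237.LR.Stm

set_option autoImplicit false

/-!
# Project LR (helper237), job ROW (helper123): the variances of the commutator with a cut-off
-/

namespace Pool.Agent.Q123.LR

open Pool.Agent.Q237.LR

/-- `(min 1 t)^2 ≤ t^θ` -/
theorem sq_le_rpow {x t θ : ℝ} (h1 : |x| ≤ 1) (h2 : |x| ≤ t) (hθ : 0 < θ) (hθ2 : θ ≤ 2) :
    x ^ 2 ≤ t ^ θ := by
  have ht : 0 ≤ t := (abs_nonneg x).trans h2
  rw [← sq_abs]
  rcases le_total t 1 with h | h
  · calc |x| ^ 2 ≤ t ^ 2 := pow_le_pow_left₀ (abs_nonneg x) h2 2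
      _ = t ^ (2 : ℝ) := (Real.rpow_two t).symm
      _ ≤ t ^ θ := Real.rpow_le_rpow_of_exponent_ge' ht h hθ.le hθ2
  · calc |x| ^ 2 ≤ 1 ^ 2 := pow_le_pow_left₀ (abs_nonneg x) h1 2
      _ = 1 := one_pow 2
      _ ≤ t ^ θ := Real.one_le_rpow h hθ.le

theorem row : S_ROW := by
  classical
  intro d R κ θ χ hR hθ hθ2 hs1 hs2 hκ hχ hχ2
  have hR0 : (0 : ℝ) < R := by exact_mod_cast hR
  have hd1 : ∀ y w, |χ y - χ w| ≤ 1 := by
    intro y w
    rw [abs_le]
    constructor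
    · linarith [(hχ y).1, (hχ w).2]
    · linarith [(hχ y).2, (hχ w).1]
  refine ⟨fun Λ y => ?_, fun Λ => ?_⟩
  · have h1 : ∀ w ∈ Λ, ((χ y - χ w) * κ (y - w)) ^ 2 ≤
        (R : ℝ) ^ (-θ) * (κ (y - w) ^ 2 * ‖y - w‖ ^ θ) := by
      intro w _
      have h2 := sq_le_rpow (hd1 y w) (hχ2 y w) hθ hθ2
      rw [Real.div_rpow (norm_nonneg _) hR0.le] at h2
      rw [mul_pow, Real.rpow_neg hR0.le]
      calc (χ y - χ w) ^ 2 * κ (y - w) ^ 2 ≤ (‖y - w‖ ^ θ / (R : ℝ) ^ θ) * κ (y - w) ^ 2 :=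
            mul_le_mul_of_nonneg_right h2 (sq_nonneg _)
        _ = ((R : ℝ) ^ θ)⁻¹ * (κ (y - w) ^ 2 * ‖y - w‖ ^ θ) := by ring
    refine (Finset.sum_le_sum h1).trans ?_
    rw [← Finset.mul_sum]
    refine mul_le_mul_of_nonneg_left ?_ (Real.rpow_nonneg hR0.le _)
    have h3 : ∑ w ∈ Λ, κ (y - w) ^ 2 * ‖y - w‖ ^ θ =
        ∑ z ∈ Λ.image (fun w => y - w), κ z ^ 2 * ‖z‖ ^ θ := by
      rw [Finset.sum_image]
      intro a _ b _ h
      exact sub_right_injective h
    rw [h3]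
    exact hs2.sum_le_tsum _ fun z _ => mul_nonneg (sq_nonneg _) (Real.rpow_nonneg (norm_nonneg _) _)
  · have h1 : ∀ y ∈ Λ, ∀ w ∈ Λ, ((χ y - χ w) * κ (y - w)) ^ 2 ≤
        (if y ∈ χ.support then κ (y - w) ^ 2 else 0) +
          (if w ∈ χ.support then κ (y - w) ^ 2 else 0) := by
      intro y _ w _
      have hle : ((χ y - χ w) * κ (y - w)) ^ 2 ≤ κ (y - w) ^ 2 := by
        rw [mul_pow]
        have h2 : (χ y - χ w) ^ 2 ≤ 1 := by
          rw [← sq_abs]
          exact pow_le_one₀ (abs_nonneg _) (hd1 y w)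
        calc (χ y - χ w) ^ 2 * κ (y - w) ^ 2 ≤ 1 * κ (y - w) ^ 2 :=
              mul_le_mul_of_nonneg_right h2 (sq_nonneg _)
          _ = κ (y - w) ^ 2 := one_mul _
      have h0 := sq_nonneg (κ (y - w))
      by_cases hy : y ∈ χ.support
      · rw [if_pos hy]
        split_ifs
        · linarith
        · linarith
      · by_cases hw : w ∈ χ.support
        · rw [if_neg hy, if_pos hw]
          linarith
        · rw [if_neg hy, if_neg hw, Finsupp.notMem_support_iff.1 hy,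
            Finsupp.notMem_support_iff.1 hw]
          simp
    have h2 : ∀ (y : Fin d → ℤ), ∑ w ∈ Λ, κ (y - w) ^ 2 ≤ ∑' z, κ z ^ 2 := by
      intro y
      have h3 : ∑ w ∈ Λ, κ (y - w) ^ 2 = ∑ z ∈ Λ.image (fun w => y - w), κ z ^ 2 := by
        rw [Finset.sum_image]
        intro a _ b _ h
        exact sub_right_injective h
      rw [h3]
      exact hs1.sum_le_tsum _ fun z _ => sq_nonneg _
    have h2' : ∀ (w : Fin d → ℤ), ∑ y ∈ Λ, κ (y - w) ^ 2 ≤ ∑' z, κ z ^ 2 := by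
      intro w
      have h3 : ∑ y ∈ Λ, κ (y - w) ^ 2 = ∑ z ∈ Λ.image (fun y => y - w), κ z ^ 2 := by
        rw [Finset.sum_image]
        intro a _ b _ h
        exact sub_left_injective h
      rw [h3]
      exact hs1.sum_le_tsum _ fun z _ => sq_nonneg _
    have hK : 0 ≤ ∑' z, κ z ^ 2 := tsum_nonneg fun z => sq_nonneg _
    have h4 : ∀ f : (Fin d → ℤ) → ℝ, (∀ y, 0 ≤ f y) → (∀ y, f y ≤ ∑' z, κ z ^ 2) →
        ∑ y ∈ Λ, (if y ∈ χ.support then f y else 0) ≤ χ.support.card * ∑' z, κ z ^ 2 := by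
      intro f hf0 hf
      rw [← Finset.sum_filter]
      calc ∑ y ∈ Λ.filter (fun y => y ∈ χ.support), f y
          ≤ ∑ y ∈ χ.support, f y := by
            refine Finset.sum_le_sum_of_subset_of_nonneg ?_ fun y _ _ => hf0 y
            intro y hy
            exact (Finset.mem_filter.1 hy).2
        _ ≤ ∑ _y ∈ χ.support, ∑' z, κ z ^ 2 := Finset.sum_le_sum fun y _ => hf y
        _ = χ.support.card * ∑' z, κ z ^ 2 := by rw [Finset.sum_const, nsmul_eq_mul]
    calc ∑ y ∈ Λ, ∑ w ∈ Λ, ((χ y - χ w) * κ (y - w)) ^ 2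
        ≤ ∑ y ∈ Λ, ∑ w ∈ Λ, ((if y ∈ χ.support then κ (y - w) ^ 2 else 0) +
            (if w ∈ χ.support then κ (y - w) ^ 2 else 0)) :=
          Finset.sum_le_sum fun y hy => Finset.sum_le_sum fun w hw => h1 y hy w hw
      _ = ∑ y ∈ Λ, (if y ∈ χ.support then ∑ w ∈ Λ, κ (y - w) ^ 2 else 0) +
            ∑ w ∈ Λ, (if w ∈ χ.support then ∑ y ∈ Λ, κ (y - w) ^ 2 else 0) := by
          simp only [Finset.sum_add_distrib]
          congr 1
          · refine Finset.sum_congr rfl fun y _ => ?_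
            split_ifs
            · rfl
            · exact Finset.sum_const_zero
          · rw [Finset.sum_comm]
            refine Finset.sum_congr rfl fun w _ => ?_
            split_ifs
            · rfl
            · exact Finset.sum_const_zero
      _ ≤ χ.support.card * ∑' z, κ z ^ 2 + χ.support.card * ∑' z, κ z ^ 2 :=
          add_le_add (h4 _ (fun y => Finset.sum_nonneg fun w _ => sq_nonneg _) h2)
            (h4 _ (fun y => Finset.sum_nonneg fun w _ => sq_nonneg _) h2')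
      _ = 2 * χ.support.card * ∑' z, κ z ^ 2 := by ring

end Pool.Agent.Q123.LR
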